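import Pool.Agent.KS6_55.GC.Unif

/-!
# Gröbner-coherence of the divided power algebra: an equivalence

Q1 asks whether graded coherence of `D_k` and Gröbner-coherence of `(k ⊗ ℚ)[x]` together imply
Gröbner-coherence of `D_k`. We show that the two conditions are also necessary, so that they
characterize the rings `k` with `D_k` Gröbner-coherent, and that both properties amount to bounds
for the degrees in representations of elements of finitely generated ideals.
-/

set_option autoImplicit false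

universe u

open V1125.DPow Polynomial TensorProduct

namespace Pool.Agent.Results.MP_5b8a1a_al.Equivalence

/-- For every commutative ring `k` the following are equivalent.
(1) `D_k` is Gröbner-coherent.
(2) `D_k` is graded-coherent and `(k ⊗ ℚ)[x]` is Gröbner-coherent.
(3) `D_k` is graded-coherent, and for all `F_1, …, F_t ∈ D_k` there is a `b` such that every element
`f` of degree at most `n` of the ideal `(F_1, …, F_t)` is `∑ h_j F_j` with all `h_j` of degree at most
`n + b`.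
(4) `D_k` is graded-coherent, and the same degree bounds exist for finitely generated ideals of
`(k ⊗ ℚ)[x]`. -/
theorem result (k : Type u) [CommRing k] : List.TFAE
    [GroebnerCoherent (dpComp (k := k)),
     GradedCoherent (dpComp (k := k)) ∧ GroebnerCoherent (polyComp (K := k ⊗[ℤ] ℚ)),
     GradedCoherent (dpComp (k := k)) ∧ ∀ (t : ℕ) (F : Fin t → DP k), ∃ b : ℕ, ∀ n : ℕ,
       ∀ f ∈ Ideal.span (Set.range F), (∀ i, n < i → coeff i f = 0) →
         ∃ h : Fin t → DP k, (∀ j i, n + b < i → coeff i (h j) = 0) ∧ f = ∑ j, h j * F j,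
     GradedCoherent (dpComp (k := k)) ∧ ∀ (t : ℕ) (G : Fin t → (k ⊗[ℤ] ℚ)[X]), ∃ b : ℕ, ∀ n : ℕ,
       ∀ g ∈ Ideal.span (Set.range G), g.natDegree ≤ n →
         ∃ w : Fin t → (k ⊗[ℤ] ℚ)[X], (∀ j, (w j).natDegree ≤ n + b) ∧ g = ∑ j, w j * G j] := by
  let _ : Algebra ℚ (k ⊗[ℤ] ℚ) := Algebra.TensorProduct.rightAlgebra
  let ψ : k →+* k ⊗[ℤ] ℚ := (Algebra.TensorProduct.includeLeft : k →ₐ[k] k ⊗[ℤ] ℚ).toRingHom
  have h1 : ∀ a : k, ψ a = 0 → ∃ s : ℕ, 0 < s ∧ (s : k) * a = 0 :=
    fun a ha => MP_5b8a1a_al.GroebnerCoherent.ker_tors k a ha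
  have h2 : ∀ z : k ⊗[ℤ] ℚ, ∃ s : ℕ, 0 < s ∧ ∃ a : k, (s : k ⊗[ℤ] ℚ) * z = ψ a :=
    fun z => MP_5b8a1a_al.GroebnerCoherent.exists_denom k z
  tfae_have 1 → 2 := by
    rintro ⟨hg, hi⟩
    exact ⟨hg, KS6_55.GC.graded h1 h2 hg, fun J hJ => KS6_55.GC.initial h1 h2 hi J hJ⟩
  tfae_have 2 → 4 := by
    rintro ⟨hg, _, hi⟩
    exact ⟨hg, fun t G => poly_rep G (hi _ (Submodule.fg_span (Set.finite_range _)))⟩
  tfae_have 4 → 3 := by
    rintro ⟨hg, hb⟩
    refine ⟨hg, fun t F => ?_⟩
    obtain ⟨d, hd⟩ : ∃ d, ∀ j i, d < i → coeff i (F j) = 0 := by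
      choose B hB using fun j => exists_bound (F j)
      exact ⟨Finset.univ.sup B, fun j m hm =>
        hB j m (lt_of_le_of_lt (Finset.le_sup (f := B) (Finset.mem_univ j)) hm)⟩
    obtain ⟨l, hl⟩ := hb t (fun j => phi ψ (F j))
    exact KS6_55.GC.uniform' hg h1 h2 F d hd l hl
  tfae_have 3 → 1 := by
    rintro ⟨hg, hb⟩
    exact KS6_55.GC.of_bound hg hb
  tfae_finish

end Pool.Agent.Results.MP_5b8a1a_al.Equivalence
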